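import Mathlib

set_option autoImplicit false

namespace Pool.Agent.Work.MP_9a9e71_co

/-- The vertex set: words of length `N` over the alphabet `{0,1,2}²`; it has `9 ^ N` elements. -/
abbrev V (N : ℕ) : Type := Fin N → Fin 2 → Fin 3

/-- Two words are adjacent when at some position both components of the letters differ. -/
def Gam (N : ℕ) : SimpleGraph (V N) where
  Adj x y := ∃ i, ∀ s, x i s ≠ y i s
  symm := ⟨by
    rintro x y ⟨i, h⟩
    exact ⟨i, fun s => (h s).symm⟩⟩
  loopless := ⟨by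
    rintro x ⟨i, h⟩
    exact h 0 rfl⟩

theorem card_V (N : ℕ) : Fintype.card (V N) = 9 ^ N := by
  simp [V]

/-- Coordinate permutations combined with local permutations are automorphisms. -/
def aut {N : ℕ} (σ : Equiv.Perm (Fin N)) (τ : Equiv.Perm (Fin 2))
    (ρ : Fin N → Fin 2 → Equiv.Perm (Fin 3)) : Gam N ≃g Gam N where
  toFun x := fun i s => ρ i s (x (σ i) (τ s))
  invFun y := fun i s => (ρ (σ.symm i) (τ.symm s)).symm (y (σ.symm i) (τ.symm s))
  left_inv := by
    intro x
    funext i s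
    simp
  right_inv := by
    intro x
    funext i s
    simp
  map_rel_iff' := by
    intro x y
    constructor
    · rintro ⟨i, h⟩
      refine ⟨σ i, fun s hxy => ?_⟩
      have h1 := h (τ.symm s)
      apply h1
      simp [hxy]
    · rintro ⟨i, h⟩
      refine ⟨σ.symm i, fun s hxy => ?_⟩
      have h1 := h (τ s)
      apply h1
      have h2 := (ρ (σ.symm i) s).injective hxy
      simpa using h2

theorem aut_apply {N : ℕ} (σ : Equiv.Perm (Fin N)) (τ : Equiv.Perm (Fin 2))
    (ρ : Fin N → Fin 2 → Equiv.Perm (Fin 3)) (x : V N) (i : Fin N) (s : Fin 2) :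
    aut σ τ ρ x i s = ρ i s (x (σ i) (τ s)) := rfl

theorem transitive_Gam (N : ℕ) (x y : V N) : ∃ φ : Gam N ≃g Gam N, φ x = y := by
  refine ⟨aut 1 1 (fun i s => Equiv.swap (x i s) (y i s)), ?_⟩
  funext i s
  simp [aut_apply]

/-- Change one entry. -/
def upd {N : ℕ} (y : V N) (i : Fin N) (s : Fin 2) (u : Fin 3) : V N :=
  fun j t => if j = i ∧ t = s then u else y j t

theorem exists_third (a b : Fin 3) : ∃ c : Fin 3, c ≠ a ∧ c ≠ b := by
  revert a b
  decide

/-- The automorphism which acts by a permutation on one entry. -/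
def one {N : ℕ} (i : Fin N) (s : Fin 2) (p : Equiv.Perm (Fin 3)) : Gam N ≃g Gam N :=
  aut 1 1 (fun j t => if j = i ∧ t = s then p else 1)

theorem one_apply {N : ℕ} (i : Fin N) (s : Fin 2) (p : Equiv.Perm (Fin 3)) (x : V N) :
    one i s p x = upd x i s (p (x i s)) := by
  funext j t
  simp only [one, aut_apply, upd, Equiv.Perm.coe_one, id]
  split_ifs with h
  · rw [h.1, h.2]
  · rfl

theorem block_Gam (N : ℕ) (B : Set (V N))
    (hB : ∀ φ : Gam N ≃g Gam N, (⇑φ) '' B = B ∨ Disjoint ((⇑φ) '' B) B) :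
    B.Subsingleton ∨ B = Set.univ := by
  by_cases hs : B.Subsingleton
  · exact Or.inl hs
  right
  rw [Set.not_subsingleton_iff] at hs
  obtain ⟨x, hx, y, hy, hxy⟩ := hs
  have key : ∀ (φ : Gam N ≃g Gam N) (z : V N), z ∈ B → φ z ∈ B → ∀ w ∈ B, φ w ∈ B := by
    intro φ z hz hφ w hw
    rcases hB φ with h | h
    · rw [← h]
      exact ⟨w, hw, rfl⟩
    · exact absurd hφ (Set.disjoint_left.mp h ⟨z, hz, rfl⟩)
  obtain ⟨i, s, his⟩ : ∃ i s, x i s ≠ y i s := by
    by_contra hcon
    push Not at hcon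
    exact hxy (funext fun i => funext fun s => hcon i s)
  obtain ⟨c, hcx, hcy⟩ := exists_third (x i s) (y i s)
  -- all three values at the entry `(i, s)` of `y`
  have hyc : upd y i s c ∈ B := by
    have h1 : one i s (Equiv.swap (y i s) c) x = x := by
      rw [one_apply, Equiv.swap_apply_of_ne_of_ne his hcx.symm]
      funext j t
      simp only [upd]
      split_ifs with h
      · rw [h.1, h.2]
      · rfl
    have h2 := key (one i s (Equiv.swap (y i s) c)) x hx (by rw [h1]; exact hx) y hy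
    rwa [one_apply, Equiv.swap_apply_left] at h2
  have hyy : upd y i s (y i s) = y := by
    funext j t
    simp only [upd]
    split_ifs with h
    · rw [h.1, h.2]
    · rfl
  have hya : upd y i s (x i s) ∈ B := by
    have h1 : one i s (Equiv.swap c (x i s)) y = y := by
      rw [one_apply, Equiv.swap_apply_of_ne_of_ne hcy.symm his.symm, hyy]
    have h2 := key (one i s (Equiv.swap c (x i s))) y hy (by rw [h1]; exact hy) _ hyc
    rw [one_apply] at h2
    have h3 : upd y i s c i s = c := by simp [upd]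
    rw [h3, Equiv.swap_apply_left] at h2
    have h4 : upd (upd y i s c) i s (x i s) = upd y i s (x i s) := by
      funext j t
      simp only [upd]
      split_ifs <;> rfl
    rwa [h4] at h2
  have hline : ∀ u, upd y i s u ∈ B := by
    intro u
    have hu : u = x i s ∨ u = y i s ∨ u = c := by
      have : ∀ a b c u : Fin 3, a ≠ b → c ≠ a → c ≠ b → (u = a ∨ u = b ∨ u = c) := by decide
      exact this _ _ _ _ his hcx hcy
    rcases hu with rfl | rfl | rfl
    · exact hya
    · rw [hyy]; exact hy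
    · exact hyc
  have hline2 : ∀ j t u, upd y j t u ∈ B := by
    intro j t u
    let φ : Gam N ≃g Gam N := aut (Equiv.swap i j) (Equiv.swap s t)
      (fun k r => Equiv.swap (y (Equiv.swap i j k) (Equiv.swap s t r)) (y k r))
    have h1 : φ y = y := by
      funext k r
      simp [φ, aut_apply]
    have h2 := key φ y hy (by rw [h1]; exact hy)
      (upd y i s (Equiv.swap (y i s) (y j t) u)) (hline _)
    have h3 : φ (upd y i s (Equiv.swap (y i s) (y j t) u)) = upd y j t u := by
      funext k r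
      simp only [φ, aut_apply, upd]
      by_cases hk : k = j ∧ r = t
      · obtain ⟨rfl, rfl⟩ := hk
        simp
      · have hk2 : ¬ (Equiv.swap i j k = i ∧ Equiv.swap s t r = s) := by
          rintro ⟨h4, h5⟩
          apply hk
          constructor
          · have := congrArg (Equiv.swap i j) h4
            simpa using this
          · have := congrArg (Equiv.swap s t) h5
            simpa using this
        rw [if_neg hk2, if_neg hk]
        simp
    rwa [h3] at h2
  have hstep : ∀ z ∈ B, ∀ j t u, upd z j t u ∈ B := by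
    intro z hz j t u
    have h1 : one j t (Equiv.swap (z j t) u) (upd y j t (z j t)) = upd y j t u := by
      rw [one_apply]
      have h5 : upd y j t (z j t) j t = z j t := by simp [upd]
      rw [h5, Equiv.swap_apply_left]
      funext k r
      simp only [upd]
      split_ifs <;> rfl
    have h2 := key (one j t (Equiv.swap (z j t) u)) _ (hline2 j t (z j t))
      (by rw [h1]; exact hline2 j t u) z hz
    rwa [one_apply, Equiv.swap_apply_left] at h2
  rw [Set.eq_univ_iff_forall]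
  intro w
  have hfin : ∀ S : Finset (Fin N × Fin 2),
      (fun j t => if (j, t) ∈ S then w j t else y j t) ∈ B := by
    intro S
    induction S using Finset.induction_on with
    | empty => simpa using hy
    | insert a S ha ih =>
      have h1 := hstep _ ih a.1 a.2 (w a.1 a.2)
      convert h1 using 1
      funext j t
      simp only [upd, Finset.mem_insert]
      by_cases hjt : j = a.1 ∧ t = a.2
      · obtain ⟨rfl, rfl⟩ := hjt
        simp
      · have : (j, t) ≠ a := by
          rintro rfl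
          exact hjt ⟨rfl, rfl⟩
        simp [this, hjt]
  have := hfin Finset.univ
  simpa using this

theorem Gam_ne_bot (N : ℕ) : Gam (N + 1) ≠ ⊥ := by
  intro h
  have h1 : (Gam (N + 1)).Adj (fun _ _ => 0) (fun _ _ => 1) := ⟨0, fun s => by simp⟩
  rw [h] at h1
  exact h1

/-- The rank of an endomorphism. -/
noncomputable def rk {N : ℕ} (f : Gam N →g Gam N) : ℕ := (Set.range (⇑f)).ncard

/-- Branching: use the first component of the first letter to choose which endomorphism is
applied to the remaining letters. -/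
def br {N : ℕ} (F : Fin 3 → (Gam N →g Gam N)) : Gam (N + 1) →g Gam (N + 1) where
  toFun x := Fin.cons (α := fun _ => Fin 2 → Fin 3) (fun _ => x 0 0) (F (x 0 0) (Fin.tail x))
  map_rel' := by
    rintro x y ⟨i, h⟩
    by_cases hxy : x 0 0 = y 0 0
    · have hi : i ≠ 0 := by
        rintro rfl
        exact h 0 hxy
      obtain ⟨j, rfl⟩ := Fin.exists_succ_eq.mpr hi
      have hadj : (Gam N).Adj (Fin.tail x) (Fin.tail y) := ⟨j, h⟩
      obtain ⟨k, hk⟩ := (F (x 0 0)).map_rel hadj
      refine ⟨k.succ, ?_⟩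
      rw [← hxy]
      simpa using hk
    · exact ⟨0, fun s => by simpa using hxy⟩

theorem br_apply {N : ℕ} (F : Fin 3 → (Gam N →g Gam N)) (x : V (N + 1)) :
    br F x = Fin.cons (α := fun _ => Fin 2 → Fin 3) (fun _ => x 0 0) (F (x 0 0) (Fin.tail x)) :=
  rfl

/-- Prepend the letter `(a, a)`. -/
def pre {N : ℕ} (a : Fin 3) (x : V N) : V (N + 1) :=
  Fin.cons (α := fun _ => Fin 2 → Fin 3) (fun _ => a) x

theorem pre_injective {N : ℕ} (a : Fin 3) : Function.Injective (pre (N := N) a) := by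
  intro x y h
  have := congrArg (fun z : V (N + 1) => Fin.tail (α := fun _ => Fin 2 → Fin 3) z) h
  simpa [pre] using this

theorem pre_ne {N : ℕ} {a b : Fin 3} (hab : a ≠ b) (x y : V N) : pre a x ≠ pre b y := by
  intro h
  have := congrArg (fun z : V (N + 1) => z 0 0) h
  simp [pre] at this
  exact hab this

theorem range_br {N : ℕ} (F : Fin 3 → (Gam N →g Gam N)) :
    Set.range (⇑(br F)) = (pre 0 '' Set.range (⇑(F 0)) ∪ pre 1 '' Set.range (⇑(F 1))) ∪
      pre 2 '' Set.range (⇑(F 2)) := by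
  ext z
  constructor
  · rintro ⟨x, rfl⟩
    have hx : ∀ a : Fin 3, a = 0 ∨ a = 1 ∨ a = 2 := by decide
    rcases hx (x 0 0) with h | h | h
    · left; left
      refine ⟨F 0 (Fin.tail x), ⟨_, rfl⟩, ?_⟩
      rw [br_apply, h]; rfl
    · left; right
      refine ⟨F 1 (Fin.tail x), ⟨_, rfl⟩, ?_⟩
      rw [br_apply, h]; rfl
    · right
      refine ⟨F 2 (Fin.tail x), ⟨_, rfl⟩, ?_⟩
      rw [br_apply, h]; rfl
  · rintro ((⟨_, ⟨x, rfl⟩, rfl⟩ | ⟨_, ⟨x, rfl⟩, rfl⟩) | ⟨_, ⟨x, rfl⟩, rfl⟩)
    · refine ⟨pre 0 x, ?_⟩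
      rw [br_apply]
      simp [pre]
    · refine ⟨pre 1 x, ?_⟩
      rw [br_apply]
      simp [pre]
    · refine ⟨pre 2 x, ?_⟩
      rw [br_apply]
      simp [pre]

theorem rk_br {N : ℕ} (F : Fin 3 → (Gam N →g Gam N)) :
    rk (br F) = rk (F 0) + rk (F 1) + rk (F 2) := by
  have hd1 : Disjoint (pre 0 '' Set.range (⇑(F 0))) (pre 1 '' Set.range (⇑(F 1))) := by
    rw [Set.disjoint_left]
    rintro _ ⟨x, _, rfl⟩ ⟨y, _, h⟩
    exact pre_ne (by decide) _ _ h.symm
  have hd2 : Disjoint (pre 0 '' Set.range (⇑(F 0)) ∪ pre 1 '' Set.range (⇑(F 1)))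
      (pre 2 '' Set.range (⇑(F 2))) := by
    rw [Set.disjoint_left]
    rintro _ (⟨x, _, rfl⟩ | ⟨x, _, rfl⟩) ⟨y, _, h⟩
    · exact pre_ne (by decide) _ _ h.symm
    · exact pre_ne (by decide) _ _ h.symm
  unfold rk
  rw [range_br, Set.ncard_union_eq hd2 (Set.toFinite _) (Set.toFinite _),
    Set.ncard_union_eq hd1 (Set.toFinite _) (Set.toFinite _),
    Set.ncard_image_of_injective _ (pre_injective 0),
    Set.ncard_image_of_injective _ (pre_injective 1),
    Set.ncard_image_of_injective _ (pre_injective 2)]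

theorem rk_id (N : ℕ) : rk (SimpleGraph.Hom.id : Gam N →g Gam N) = 9 ^ N := by
  unfold rk
  have : Set.range (⇑(SimpleGraph.Hom.id : Gam N →g Gam N)) = Set.univ := by
    rw [Set.range_eq_univ]
    intro x
    exact ⟨x, rfl⟩
  rw [this, Set.ncard_univ, Nat.card_eq_fintype_card, card_V]

/-- `t` is a rank of `Gam N`. -/
def IsRk (N t : ℕ) : Prop := ∃ f : Gam N →g Gam N, rk f = t

theorem isRk_add {N a b c : ℕ} (ha : IsRk N a) (hb : IsRk N b) (hc : IsRk N c) :
    IsRk (N + 1) (a + b + c) := by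
  obtain ⟨f, rfl⟩ := ha
  obtain ⟨g, rfl⟩ := hb
  obtain ⟨h, rfl⟩ := hc
  exact ⟨br ![f, g, h], by rw [rk_br]; rfl⟩

theorem isRk_pow (N : ℕ) : IsRk N (9 ^ N) := ⟨_, rk_id N⟩

/-- `t` is a sum of `w` ranks of `Gam N`. -/
def IsSum (N : ℕ) : ℕ → ℕ → Prop
  | 0, t => t = 0
  | (w + 1), t => ∃ a b, IsRk N a ∧ IsSum N w b ∧ t = a + b

theorem isSum_add {N : ℕ} : ∀ {w w' t t' : ℕ}, IsSum N w t → IsSum N w' t' →
    IsSum N (w + w') (t + t')
  | 0, w', t, t', h, h' => by
    simp only [IsSum] at h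
    subst h
    simpa using h'
  | (w + 1), w', t, t', h, h' => by
    obtain ⟨a, b, ha, hb, rfl⟩ := h
    rw [show w + 1 + w' = (w + w') + 1 by ring]
    exact ⟨a, b + t', ha, isSum_add hb h', by ring⟩

theorem isSum_mul {N a : ℕ} (ha : IsRk N a) : ∀ w : ℕ, IsSum N w (w * a)
  | 0 => by simp [IsSum]
  | (w + 1) => ⟨a, w * a, ha, isSum_mul ha w, by ring⟩

theorem isSum_up {N : ℕ} : ∀ {w t : ℕ}, IsSum N (3 * w) t → IsSum (N + 1) w t
  | 0, t, h => by simpa [IsSum] using h
  | (w + 1), t, h => by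
    rw [show 3 * (w + 1) = 3 * w + 1 + 1 + 1 by ring] at h
    obtain ⟨a, _, ha, ⟨b, _, hb, ⟨c, d, hc, hd, rfl⟩, rfl⟩, rfl⟩ := h
    exact ⟨a + b + c, d, isRk_add ha hb hc, isSum_up hd, by ring⟩

theorem isRk_of_isSum {N t : ℕ} (h : IsSum N 1 t) : IsRk N t := by
  obtain ⟨a, b, ha, hb, rfl⟩ := h
  simp only [IsSum] at hb
  subst hb
  simpa using ha

/-- Main combinatorial statement: for `N ≥ 1` every `t ≡ 3 w (mod 6)` with
`w 3 ^ N ≤ t ≤ (w - 6) 9 ^ N` is a sum of `w` ranks of `Gam N`. -/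
theorem isSum_main : ∀ (N w t : ℕ), t % 6 = (3 * w) % 6 → w * 3 ^ (N + 1) ≤ t →
    t + 6 * 9 ^ (N + 1) ≤ w * 9 ^ (N + 1) → IsSum (N + 1) w t := by
  intro N
  induction N with
  | zero =>
    intro w t hmod hlo hhi
    simp only [zero_add, pow_one] at *
    obtain ⟨j, hj⟩ : ∃ j, t = 3 * w + 6 * j := ⟨(t - 3 * w) / 6, by omega⟩
    have hjw : j ≤ w := by omega
    have h1 : IsRk 1 9 := by simpa using isRk_pow 1
    have h0 : IsRk 0 1 := by simpa using isRk_pow 0
    have h3 : IsRk 1 3 := isRk_add h0 h0 h0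
    have := isSum_add (isSum_mul h1 j) (isSum_mul h3 (w - j))
    rw [show j + (w - j) = w by omega] at this
    convert this using 1
    omega
  | succ N ih =>
    intro w t hmod hlo hhi
    have hp : 0 < 3 ^ (N + 1) := by positivity
    have hq : 3 * 3 ^ (N + 1) ≤ 9 ^ (N + 1) := by
      have : (9 : ℕ) ^ (N + 1) = 3 ^ (N + 1) * 3 ^ (N + 1) := by
        rw [← mul_pow]
        norm_num
      rw [this]
      have h3 : 3 ≤ 3 ^ (N + 1) := by
        calc 3 = 3 ^ 1 := by norm_num
          _ ≤ 3 ^ (N + 1) := Nat.pow_le_pow_right (by norm_num) (by omega)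
      exact Nat.mul_le_mul_right _ h3
    have e3 : (3 : ℕ) ^ (N + 1 + 1) = 3 * 3 ^ (N + 1) := by ring
    have e9 : (9 : ℕ) ^ (N + 1 + 1) = 9 * 9 ^ (N + 1) := by ring
    rw [e3] at hlo
    rw [e9] at hhi
    rw [show w * (3 * 3 ^ (N + 1)) = w * (3 * 3 ^ (N + 1)) from rfl] at hlo
    set P := (3 : ℕ) ^ (N + 1) with hP
    set Q := (9 : ℕ) ^ (N + 1) with hQ
    -- division
    obtain ⟨j, ρ, hjρ, hρ⟩ : ∃ j ρ, t = w * (3 * P) + j * (9 * Q - 3 * P) + ρ ∧
        ρ < 9 * Q - 3 * P := by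
      refine ⟨(t - w * (3 * P)) / (9 * Q - 3 * P), (t - w * (3 * P)) % (9 * Q - 3 * P), ?_, ?_⟩
      · have := Nat.div_add_mod (t - w * (3 * P)) (9 * Q - 3 * P)
        rw [mul_comm] at this
        omega
      · exact Nat.mod_lt _ (by omega)
    obtain ⟨D, hD⟩ : ∃ D, 9 * Q = 3 * P + D := ⟨9 * Q - 3 * P, by omega⟩
    have hD' : 9 * Q - 3 * P = D := by omega
    rw [hD'] at hjρ hρ
    -- `j < w - 6`
    have hjw : j + 7 ≤ w := by
      by_contra hcon
      have hw : w ≤ j + 6 := by omega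
      have h1 : w * (9 * Q) ≤ (j + 6) * (9 * Q) := Nat.mul_le_mul_right _ hw
      have h2 : t < j * (9 * Q) + 1 := by nlinarith
      have h3 : j * (9 * Q) = j * (3 * P) + j * D := by rw [hD]; ring
      rcases Nat.lt_or_ge j w with h | h
      · have h4 : (j + 1) * (3 * P) ≤ w * (3 * P) := Nat.mul_le_mul_right _ h
        nlinarith
      · have h5 : w * (9 * Q) ≤ j * (9 * Q) := Nat.mul_le_mul_right _ h
        -- then t ≥ j * D + w * 3P ≥ w * (3P + D) = w * 9Q > t
        have h6 : w * D ≤ j * D := Nat.mul_le_mul_right _ h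
        have h7 : w * (9 * Q) = w * (3 * P) + w * D := by rw [hD]; ring
        have hQpos : 0 < Q := by positivity
        omega
    obtain ⟨v, rfl⟩ : ∃ v, w = j + v := ⟨w - j, by omega⟩
    have hv : 7 ≤ v := by omega
    -- the remaining part
    have ht : t = j * 9 ^ (N + 1 + 1) + (v * (3 * P) + ρ) := by
      rw [e9, hjρ, hD]; ring
    have hih : IsSum (N + 1) (3 * v) (v * (3 * P) + ρ) := by
      apply ih
      · have h9 : (9 * Q) % 6 = 3 := by
          have : Q % 2 = 1 := by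
            rw [hQ, Nat.pow_mod]; simp
          omega
        have : t = j * (9 * Q) + (v * (3 * P) + ρ) := by rw [ht, e9]
        obtain ⟨q, hq'⟩ : ∃ q, 9 * Q = 6 * q + 3 := ⟨9 * Q / 6, by omega⟩
        rw [hq'] at this
        have h10 : j * (6 * q + 3) = 6 * (j * q) + 3 * j := by ring
        rw [h10] at this
        omega
      · calc 3 * v * P = v * (3 * P) := by ring
          _ ≤ v * (3 * P) + ρ := Nat.le_add_right _ _
      · have h11 : v * (3 * P) + 9 * Q ≤ v * Q + 9 * Q + 0 := by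
          have := Nat.mul_le_mul_left v hq
          omega
        have h12 : v * (3 * P) + 15 * Q ≤ 3 * v * Q + 3 * P := by
          obtain ⟨u, rfl⟩ : ∃ u, v = u + 7 := ⟨v - 7, by omega⟩
          nlinarith [Nat.mul_le_mul_left u hq]
        omega
    have h13 := isSum_add (isSum_mul (isRk_pow (N + 1 + 1)) j) (isSum_up hih)
    rw [← ht] at h13
    exact h13

theorem isRk_main (N t : ℕ) (h1 : t % 6 = 3) (h2 : 9 * 3 ^ (N + 1) ≤ t)
    (h3 : t ≤ 3 * 9 ^ (N + 1)) : IsRk (N + 1 + 2) t := by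
  have h4 : IsSum (N + 1) 9 t := isSum_main N 9 t (by omega) h2 (by omega)
  exact isRk_of_isSum (isSum_up (w := 1) (isSum_up (w := 3) h4))

/-- For every `N`, the graph `Gam (N + 4)` on `9 ^ (N + 4)` vertices has at least
`9 ^ (N + 4) / 324` endomorphism ranks. -/
theorem many_ranks (N : ℕ) :
    9 ^ (N + 4) ≤ 324 * (Set.range (fun φ : Gam (N + 4) →g Gam (N + 4) =>
      (Set.range (⇑φ)).ncard)).ncard := by
  set R := Set.range (fun φ : Gam (N + 4) →g Gam (N + 4) => (Set.range (⇑φ)).ncard) with hR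
  have hfin : R.Finite := by
    apply (Set.finite_Iic (Nat.card (V (N + 4)))).subset
    rintro _ ⟨φ, rfl⟩
    exact Set.ncard_le_card _
  obtain ⟨b, hb⟩ : ∃ b, 9 ^ (N + 2) = 2 * b + 1 := by
    have : (9 : ℕ) ^ (N + 2) % 2 = 1 := by rw [Nat.pow_mod]; simp
    exact ⟨9 ^ (N + 2) / 2, by omega⟩
  have hsub : (fun s => 6 * s + 3) '' (Set.Icc (2 * 3 ^ (N + 2)) b) ⊆ R := by
    rintro _ ⟨s, ⟨hs1, hs2⟩, rfl⟩
    have h1 : IsRk (N + 1 + 1 + 2) (6 * s + 3) := by
      apply isRk_main (N + 1)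
      · omega
      · show 9 * 3 ^ (N + 2) ≤ _
        omega
      · show _ ≤ 3 * 9 ^ (N + 2)
        rw [hb]; omega
    obtain ⟨f, hf⟩ := h1
    exact ⟨f, hf⟩
  have h1 := Set.ncard_le_ncard hsub hfin
  rw [Set.ncard_image_of_injective _ (fun a b h => by simpa using h)] at h1
  have h2 : (Set.Icc (2 * 3 ^ (N + 2)) b).ncard = b + 1 - 2 * 3 ^ (N + 2) := by
    rw [Set.ncard_eq_toFinset_card']
    simp
  rw [h2] at h1
  have h3 : 9 * 3 ^ (N + 2) ≤ 9 ^ (N + 2) := by
    have : (9 : ℕ) ^ (N + 2) = 3 ^ (N + 2) * 3 ^ (N + 2) := by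
      rw [← mul_pow]
      norm_num
    rw [this]
    have h3 : 9 ≤ 3 ^ (N + 2) := by
      calc 9 = 3 ^ 2 := by norm_num
        _ ≤ 3 ^ (N + 2) := Nat.pow_le_pow_right (by norm_num) (by omega)
    exact Nat.mul_le_mul_right _ h3
  have h4 : (9 : ℕ) ^ (N + 4) = 81 * 9 ^ (N + 2) := by ring
  rw [h4]
  omega

end Pool.Agent.Work.MP_9a9e71_co
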